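import Pool.Agent.Q120.BU.Stm

/-!
# Project BU (helper120), job UNI: the union bound over all polynomial systems
-/

set_option autoImplicit false
set_option linter.unusedSectionVars false
set_option linter.unusedVariables false

namespace Pool.Agent.Q149.BU

open Finset MeasureTheory Filter Pool.Agent.Q120.ET Pool.Agent.Q120.ME Pool.Agent.Q120.BU Polynomial
open scoped Topology

theorem va_le {g N : ℕ} {C : ℝ} (hN : 1 ≤ N) {P : ℤ[X]} (hd : P.natDegree ≤ g)
    (hc : ∀ j, |((P.coeff j : ℤ) : ℝ)| ≤ (N : ℝ) ^ C) {n : ℕ} (hn : n ≤ N) :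
    ((va P n : ℕ) : ℝ) ≤ ((g : ℝ) + 1) * (N : ℝ) ^ ((g : ℝ) + C) := by
  have hN0 : (0 : ℝ) < N := by exact_mod_cast hN
  have hN1 : (1 : ℝ) ≤ N := by exact_mod_cast hN
  have h1 : ((va P n : ℕ) : ℝ) ≤ |((P.eval (n : ℤ) : ℤ) : ℝ)| := by
    have h2 : ((va P n : ℕ) : ℤ) ≤ |P.eval (n : ℤ)| := by
      unfold va
      rw [Int.toNat_eq_max]
      exact max_le (le_abs_self _) (abs_nonneg _)
    exact_mod_cast h2
  refine h1.trans ?_
  rw [Polynomial.eval_eq_sum_range' (Nat.lt_succ_of_le hd)]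
  push_cast
  refine (abs_sum_le_sum_abs _ _).trans ?_
  have h3 : ∀ j ∈ range (g + 1), |((P.coeff j : ℤ) : ℝ) * (n : ℝ) ^ j| ≤ (N : ℝ) ^ ((g : ℝ) + C) := by
    intro j hj
    rw [abs_mul, abs_of_nonneg (by positivity : (0 : ℝ) ≤ (n : ℝ) ^ j), add_comm, Real.rpow_add hN0,
      Real.rpow_natCast]
    refine mul_le_mul (hc j) ?_ (by positivity) (by positivity)
    calc (n : ℝ) ^ j ≤ (N : ℝ) ^ j := pow_le_pow_left₀ (Nat.cast_nonneg n) (by exact_mod_cast hn) j
      _ ≤ (N : ℝ) ^ g := pow_le_pow_right₀ hN1 (Nat.lt_succ_iff.1 (mem_range.1 hj))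
  refine (sum_le_card_nsmul _ _ _ h3).trans (le_of_eq ?_)
  rw [card_range, nsmul_eq_mul]
  push_cast
  ring

theorem card_va {P : ℤ[X]} {g : ℕ} (h1 : 1 ≤ P.natDegree) (hg : P.natDegree ≤ g) {a : ℕ}
    (ha : a ≠ 0) (x : ℕ) : ((range x).filter (fun n => va P n = a)).card ≤ g := by
  classical
  have h0 : P - Polynomial.C (a : ℤ) ≠ 0 := by
    intro h
    have h2 := Polynomial.natDegree_sub_C (p := P) (a := (a : ℤ))
    rw [h, natDegree_zero] at h2
    omega
  have h2 : ((range x).filter (fun n => va P n = a)).card ≤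
      (P - Polynomial.C (a : ℤ)).roots.toFinset.card := by
    refine card_le_card_of_injOn (fun n => (n : ℤ)) ?_ fun m _ n _ h => Nat.cast_injective h
    intro n hn
    rw [mem_coe, mem_filter] at hn
    show (n : ℤ) ∈ _
    rw [mem_coe, Multiset.mem_toFinset, mem_roots h0, IsRoot, eval_sub, eval_C, sub_eq_zero]
    have h3 := hn.2
    unfold va at h3
    omega
  refine h2.trans ((Multiset.toFinset_card_le _).trans ((card_roots' _).trans ?_))
  rw [natDegree_sub_C]
  exact hg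

section

variable {k : ℕ}

/-- the count on `W` -/
noncomputable def ff (W : Finset ℕ) (F : Fin k → ℤ[X]) (x : ℕ) (T : Finset ℕ) : ℝ :=
  (hit ((T ∩ W : Finset ℕ) : Set ℕ) F x : ℝ)

theorem ff_inter (W : Finset ℕ) (F : Fin k → ℤ[X]) (x : ℕ) (T : Finset ℕ) :
    ff W F x T = ff W F x (T ∩ W) := by
  unfold ff
  rw [inter_assoc, inter_self]

theorem hit_eq (S : Set ℕ) (F : Fin k → ℤ[X]) (x : ℕ) [DecidablePred fun n => ∀ i, va (F i) n ∈ S] :
    hit S F x = ((range x).filter (fun n => ∀ i, va (F i) n ∈ S)).card := by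
  unfold hit
  congr!

theorem hit_mono {S S' : Set ℕ} (h : S ⊆ S') (F : Fin k → ℤ[X]) (x : ℕ) : hit S F x ≤ hit S' F x := by
  classical
  rw [hit_eq, hit_eq]
  refine card_le_card fun n hn => ?_
  rw [mem_filter] at hn ⊢
  exact ⟨hn.1, fun i => h (hn.2 i)⟩

theorem ff_diff {g : ℕ} {W : Finset ℕ} {F : Fin k → ℤ[X]} (h1 : ∀ i, 1 ≤ (F i).natDegree)
    (hg : ∀ i, (F i).natDegree ≤ g) (x : ℕ) (T : Finset ℕ) {a : ℕ} (ha : a ≠ 0) :
    |ff W F x (insert a T) - ff W F x (T.erase a)| ≤ k * g := by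
  classical
  have h2 : hit ((T.erase a ∩ W : Finset ℕ) : Set ℕ) F x ≤
      hit ((insert a T ∩ W : Finset ℕ) : Set ℕ) F x := by
    refine hit_mono ?_ F x
    intro v hv
    rw [mem_coe, mem_inter] at hv ⊢
    exact ⟨mem_insert_of_mem (mem_of_mem_erase hv.1), hv.2⟩
  have h3 : hit ((insert a T ∩ W : Finset ℕ) : Set ℕ) F x ≤
      hit ((T.erase a ∩ W : Finset ℕ) : Set ℕ) F x + k * g := by
    have h4 : ((range x).filter (fun n => ∀ i, va (F i) n ∈ ((insert a T ∩ W : Finset ℕ) : Set ℕ))) ⊆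
        ((range x).filter (fun n => ∀ i, va (F i) n ∈ ((T.erase a ∩ W : Finset ℕ) : Set ℕ))) ∪
        (univ : Finset (Fin k)).biUnion (fun i => (range x).filter (fun n => va (F i) n = a)) := by
      intro n hn
      rw [mem_filter] at hn
      rw [mem_union]
      by_cases h5 : ∃ i, va (F i) n = a
      · obtain ⟨i, hi⟩ := h5
        right
        rw [mem_biUnion]
        exact ⟨i, mem_univ _, mem_filter.2 ⟨hn.1, hi⟩⟩
      · left
        push Not at h5
        rw [mem_filter]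
        refine ⟨hn.1, fun i => ?_⟩
        have h6 := hn.2 i
        rw [mem_coe, mem_inter, mem_insert] at h6
        rw [mem_coe, mem_inter, mem_erase]
        exact ⟨⟨h5 i, h6.1.resolve_left (h5 i)⟩, h6.2⟩
    have h5 : ((univ : Finset (Fin k)).biUnion
        (fun i => (range x).filter (fun n => va (F i) n = a))).card ≤ k * g := by
      refine card_biUnion_le.trans ?_
      have h6 := sum_le_card_nsmul (univ : Finset (Fin k))
        (fun i => ((range x).filter (fun n => va (F i) n = a)).card) g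
        (fun i _ => card_va (h1 i) (hg i) ha x)
      rwa [card_univ, Fintype.card_fin, smul_eq_mul] at h6
    have h6 := (card_le_card h4).trans ((card_union_le _ _).trans (Nat.add_le_add_left h5 _))
    rw [hit_eq, hit_eq]
    exact h6
  unfold ff
  rw [abs_le]
  have h2' : ((hit ((T.erase a ∩ W : Finset ℕ) : Set ℕ) F x : ℕ) : ℝ) ≤
      hit ((insert a T ∩ W : Finset ℕ) : Set ℕ) F x := by exact_mod_cast h2
  have h3' : ((hit ((insert a T ∩ W : Finset ℕ) : Set ℕ) F x : ℕ) : ℝ) ≤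
      hit ((T.erase a ∩ W : Finset ℕ) : Set ℕ) F x + k * g := by exact_mod_cast h3
  have h7 : (0 : ℝ) ≤ k * g := by positivity
  constructor <;> linarith

theorem sum_bern (p : ℕ → ℝ) (W V : Finset ℕ) (hV : V ⊆ W) :
    ∑ T ∈ W.powerset, (if V ⊆ T then bern p W T else 0) = ∏ v ∈ V, p v := by
  have h1 := Finset.prod_add p (fun v => if v ∈ V then 0 else 1 - p v) W
  have h2 : ∏ v ∈ W, (p v + if v ∈ V then 0 else 1 - p v) = ∏ v ∈ V, p v := by
    rw [← prod_subset hV (f := fun v => p v + if v ∈ V then 0 else 1 - p v)]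
    · refine prod_congr rfl fun v hv => ?_
      rw [if_pos hv, add_zero]
    · intro v _ hv
      rw [if_neg hv]
      ring
  rw [h2] at h1
  rw [h1]
  refine sum_congr rfl fun T hT => ?_
  rw [mem_powerset] at hT
  have h3 : bern p W T = (∏ v ∈ T, p v) * ∏ v ∈ W \ T, (1 - p v) := by
    unfold bern
    rw [prod_ite]
    congr 1
    · refine prod_congr ?_ fun _ _ => rfl
      ext v
      rw [mem_filter]
      exact ⟨fun h => h.2, fun h => ⟨hT h, h⟩⟩
    · refine prod_congr ?_ fun _ _ => rfl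
      ext v
      rw [mem_filter, Finset.mem_sdiff]
  split_ifs with h
  · rw [h3]
    congr 1
    refine prod_congr rfl fun v hv => ?_
    rw [if_neg fun h' => (Finset.mem_sdiff.1 hv).2 (h h')]
  · obtain ⟨v, hv, hvT⟩ := not_subset.1 h
    rw [prod_eq_zero (i := v) (Finset.mem_sdiff.2 ⟨hV hv, hvT⟩), mul_zero]
    rw [if_pos hv]

theorem sum_ff (p : ℕ → ℝ) (W : Finset ℕ) (F : Fin k → ℤ[X]) (x : ℕ)
    (h : ∀ n < x, ∀ v ∈ vals F n, v ∉ W → p v = 0) :
    ∑ T ∈ W.powerset, bern p W T * ff W F x T = ex p F x := by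
  classical
  have h1 : ∀ T ∈ W.powerset, bern p W T * ff W F x T =
      ∑ n ∈ range x, if vals F n ⊆ T then bern p W T else 0 := by
    intro T hT
    rw [mem_powerset] at hT
    have h2 : ff W F x T = ∑ n ∈ range x, if vals F n ⊆ T then (1 : ℝ) else 0 := by
      unfold ff
      rw [hit_eq, ← sum_filter, sum_const, nsmul_eq_mul, mul_one]
      congr 2
      ext n
      rw [mem_filter, mem_filter, inter_eq_left.2 hT]
      unfold vals
      constructor
      · rintro ⟨h1, h2⟩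
        refine ⟨h1, fun v hv => ?_⟩
        obtain ⟨i, -, rfl⟩ := mem_image.1 hv
        exact mem_coe.1 (h2 i)
      · rintro ⟨h1, h2⟩
        exact ⟨h1, fun i => mem_coe.2 (h2 (mem_image_of_mem _ (mem_univ i)))⟩
    rw [h2, mul_sum]
    refine sum_congr rfl fun n _ => ?_
    rw [mul_ite, mul_one, mul_zero]
  rw [sum_congr rfl h1, sum_comm]
  unfold ex
  refine sum_congr rfl fun n hn => ?_
  by_cases hV : vals F n ⊆ W
  · exact sum_bern p W _ hV
  · obtain ⟨v, hv, hvW⟩ := not_subset.1 hV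
    rw [prod_eq_zero hv (h n (mem_range.1 hn) v hv hvW)]
    refine sum_eq_zero fun T hT => ?_
    rw [if_neg fun h' => hvW (mem_powerset.1 hT (h' hv))]

theorem bern_nonneg {p : ℕ → ℝ} (hp : ∀ n, 0 ≤ p n ∧ p n ≤ 1) (G T : Finset ℕ) : 0 ≤ bern p G T := by
  unfold bern
  refine prod_nonneg fun n _ => ?_
  split_ifs
  · exact (hp n).1
  · linarith [(hp n).2]

open Classical in
/-- one system -/
theorem one_sys (hM : J_MCD) {g N : ℕ} {C θ : ℝ} (hk : 1 ≤ k) (hg : 1 ≤ g) (hN : 1 ≤ N)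
    {U : Set ℕ} {p : ℕ → ℝ} {Y : ℕ} (h0 : 0 ∉ U) (hp : ∀ n, 0 ≤ p n ∧ p n ≤ 1)
    (hpU : ∀ n, n ∉ U → p n = 0) (hY : ((g : ℝ) + 1) * (N : ℝ) ^ ((g : ℝ) + C) < Y)
    {F : Fin k → ℤ[X]} (hF : Sys g C N F) {x : ℕ} (hx : x ≤ N) :
    ∑ T ∈ (ind U Y).powerset with (N : ℝ) ^ θ < |(hit ((T : Finset ℕ) : Set ℕ) F x : ℝ) - ex p F x|,
      bern p (ind U Y) T ≤
      2 * Real.exp (-((N : ℝ) ^ (2 * θ - 1) / (2 * k * ((k : ℝ) * g) ^ 2))) := by
  have hN0 : (0 : ℝ) < N := by exact_mod_cast hN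
  have hk0 : (0 : ℝ) < k := by exact_mod_cast hk
  have hg0 : (0 : ℝ) < g := by exact_mod_cast hg
  set V : Finset ℕ := (range x).biUnion (fun n => vals F n) with hV
  set W : Finset ℕ := ind U Y ∩ V with hW
  have hWG : W ⊆ ind U Y := inter_subset_left
  have hval : ∀ n < x, ∀ v ∈ vals F n, v < Y := by
    intro n hn v hv
    obtain ⟨i, -, rfl⟩ := mem_image.1 hv
    have h1 := va_le hN (hF.le i) (hF.coeff i) (n := n) (hn.le.trans hx)
    exact_mod_cast h1.trans_lt hY
  have hp0 : ∀ n < x, ∀ v ∈ vals F n, v ∉ W → p v = 0 := by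
    intro n hn v hv hvW
    refine hpU v fun hvU => hvW ?_
    rw [hW, mem_inter]
    refine ⟨?_, ?_⟩
    · unfold ind
      rw [mem_filter, mem_range]
      exact ⟨hval n hn v hv, hvU⟩
    · rw [hV, mem_biUnion]
      exact ⟨n, mem_range.2 hn, hv⟩
  have hE := sum_ff p W F x hp0
  have hff : ∀ T ∈ (ind U Y).powerset, (hit ((T : Finset ℕ) : Set ℕ) F x : ℝ) = ff W F x T := by
    intro T hT
    rw [mem_powerset] at hT
    unfold ff
    congr 1
    rw [hit_eq, hit_eq]
    congr 1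
    ext n
    rw [mem_filter, mem_filter]
    constructor
    · rintro ⟨h1, h2⟩
      refine ⟨h1, fun i => ?_⟩
      rw [mem_coe, mem_inter, hW, mem_inter]
      refine ⟨h2 i, hT (h2 i), ?_⟩
      rw [hV, mem_biUnion]
      exact ⟨n, h1, mem_image_of_mem _ (mem_univ i)⟩
    · rintro ⟨h1, h2⟩
      refine ⟨h1, fun i => ?_⟩
      have h3 := h2 i
      rw [mem_coe, mem_inter] at h3
      exact h3.1
  have hWcard : W.card ≤ k * N := by
    calc W.card ≤ V.card := card_le_card inter_subset_right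
      _ ≤ ∑ n ∈ range x, (vals F n).card := card_biUnion_le
      _ ≤ ∑ _n ∈ range x, k := by
          refine sum_le_sum fun n _ => ?_
          unfold vals
          refine card_image_le.trans ?_
          rw [card_univ, Fintype.card_fin]
      _ = x * k := by rw [sum_const, card_range, smul_eq_mul]
      _ ≤ k * N := by
          rw [mul_comm]
          exact Nat.mul_le_mul_left k hx
  rcases W.eq_empty_or_nonempty with hWe | hWne
  · -- nothing random
    have h1 : ∀ T : Finset ℕ, ff W F x T = 0 := by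
      intro T
      unfold ff hit
      rw [hWe, inter_empty]
      norm_cast
      rw [card_eq_zero, filter_eq_empty_iff]
      intro n _ h
      have h2 := h ⟨0, hk⟩
      simp at h2
    have h2 : ex p F x = 0 := by
      rw [← hE]
      exact sum_eq_zero fun T _ => by rw [h1, mul_zero]
    have h3 : ((ind U Y).powerset.filter (fun T : Finset ℕ =>
        (N : ℝ) ^ θ < |(hit ((T : Finset ℕ) : Set ℕ) F x : ℝ) - ex p F x|)) = ∅ := by
      rw [filter_eq_empty_iff]
      intro T hT h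
      rw [hff T hT, h1, h2, sub_zero, abs_zero] at h
      have : (0 : ℝ) < (N : ℝ) ^ θ := by positivity
      linarith
    rw [h3, sum_empty]
    positivity
  · have hWc : (0 : ℝ) < W.card := by exact_mod_cast hWne.card_pos
    have hb : (0 : ℝ) < (k : ℝ) * g := by positivity
    have h1 := hM p (ind U Y) W hWG (fun n _ => hp n) (ff W F x) ((k : ℝ) * g) ((N : ℝ) ^ θ)
      (by positivity) hb (fun T => ff_inter W F x T) (fun T a ha => by
        refine ff_diff hF.one_le hF.le x T ?_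
        rintro rfl
        have h2 := hWG ha
        unfold ind at h2
        exact h0 (mem_filter.1 h2).2)
    rw [hE] at h1
    have h2 : ∑ T ∈ (ind U Y).powerset with
        (N : ℝ) ^ θ < |(hit ((T : Finset ℕ) : Set ℕ) F x : ℝ) - ex p F x|, bern p (ind U Y) T ≤
        ∑ T ∈ (ind U Y).powerset with (N : ℝ) ^ θ ≤ |ff W F x T - ex p F x|, bern p (ind U Y) T := by
      refine sum_le_sum_of_subset_of_nonneg ?_ fun T _ _ => bern_nonneg hp _ _
      intro T hT
      rw [mem_filter] at hT ⊢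
      refine ⟨hT.1, ?_⟩
      rw [← hff T hT.1]
      exact hT.2.le
    refine h2.trans ?_
    have h3 : (2 : ℝ) * Real.exp (-(((N : ℝ) ^ θ) ^ 2 / (2 * W.card * ((k : ℝ) * g) ^ 2))) ≤
        2 * Real.exp (-((N : ℝ) ^ (2 * θ - 1) / (2 * k * ((k : ℝ) * g) ^ 2))) := by
      refine mul_le_mul_of_nonneg_left (Real.exp_le_exp.2 (neg_le_neg ?_)) (by norm_num)
      have h4 : (N : ℝ) ^ (2 * θ - 1) = ((N : ℝ) ^ θ) ^ 2 / N := by
        rw [Real.rpow_sub hN0, Real.rpow_one, mul_comm, Real.rpow_mul hN0.le, Real.rpow_two]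
      rw [h4, div_div]
      refine div_le_div_of_nonneg_left (by positivity) (by positivity) ?_
      have h5 : (W.card : ℝ) ≤ k * N := by exact_mod_cast hWcard
      calc (2 : ℝ) * W.card * ((k : ℝ) * g) ^ 2 ≤ 2 * (k * N) * ((k : ℝ) * g) ^ 2 :=
            mul_le_mul_of_nonneg_right (mul_le_mul_of_nonneg_left h5 (by norm_num)) (by positivity)
        _ = N * (2 * k * ((k : ℝ) * g) ^ 2) := by ring
    refine le_trans ?_ h3
    convert h1

end

/-- union bound -/
theorem union_le {ι κ : Type} (A : Finset ι) (s : Finset κ) (R : ι → κ → Prop) (w : κ → ℝ)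
    (hw : ∀ T, 0 ≤ w T) (E : κ → Prop) [DecidablePred E] [∀ a, DecidablePred (R a)]
    (h : ∀ T ∈ s, E T → ∃ a ∈ A, R a T) :
    ∑ T ∈ s with E T, w T ≤ ∑ a ∈ A, ∑ T ∈ s with R a T, w T := by
  simp only [sum_filter]
  rw [sum_comm]
  refine sum_le_sum fun T hT => ?_
  have h0 : ∀ a ∈ A, 0 ≤ if R a T then w T else 0 := fun a _ => by
    split_ifs
    · exact hw T
    · exact le_rfl
  by_cases hE : E T
  · obtain ⟨a, ha, hR⟩ := h T hT hE
    rw [if_pos hE]
    calc w T = if R a T then w T else 0 := (if_pos hR).symm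
      _ ≤ _ := single_le_sum h0 ha
  · rw [if_neg hE]
    exact sum_nonneg h0

/-- the system with given coefficients -/
noncomputable def sysOf {k g : ℕ} (c : Fin k → Fin (g + 1) → ℤ) (i : Fin k) : ℤ[X] :=
  ∑ j : Fin (g + 1), monomial (j : ℕ) (c i j)

theorem sysOf_coeff {k g : ℕ} {F : Fin k → ℤ[X]} (h : ∀ i, (F i).natDegree ≤ g) :
    sysOf (fun i (j : Fin (g + 1)) => (F i).coeff j) = F := by
  funext i
  unfold sysOf
  have h1 := Polynomial.as_sum_range' (F i) (g + 1) (Nat.lt_succ_of_le (h i))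
  rw [Finset.sum_range] at h1
  exact h1.symm

/-- the coefficient vectors -/
noncomputable def box (k g : ℕ) (B : ℤ) : Finset (Fin k → Fin (g + 1) → ℤ) :=
  Fintype.piFinset fun _ => Fintype.piFinset fun _ => Icc (-B) B

theorem card_box (k g : ℕ) {B : ℤ} (hB : 0 ≤ B) :
    ((box k g B).card : ℝ) = (((2 * B + 1 : ℤ) : ℝ) ^ (g + 1)) ^ k := by
  unfold box
  rw [Fintype.card_piFinset_const, Fintype.card_piFinset_const, Int.card_Icc]
  have h1 : ((B + 1 - -B).toNat : ℤ) = 2 * B + 1 := by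
    rw [Int.toNat_of_nonneg (by linarith)]
    ring
  have h2 : (((B + 1 - -B).toNat : ℕ) : ℝ) = ((2 * B + 1 : ℤ) : ℝ) := by
    rw [← h1]
    push_cast
    rfl
  push_cast
  rw [h2]
  push_cast
  simp

theorem asy (k g : ℕ) {C s D : ℝ} (hC : 0 ≤ C) (hs : 0 < s) (hD : 0 < D) :
    ∀ᶠ N : ℕ in atTop, ((3 * (N : ℝ) ^ C) ^ (g + 1)) ^ k * (2 * N) * (2 * Real.exp (-((N : ℝ) ^ s / D))) ≤
      Real.exp (-(1 / (2 * D) * (N : ℝ) ^ s)) := by
  set K : ℝ := ((g : ℝ) + 1) * k with hK
  have hK0 : 0 ≤ K := by positivity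
  set a : ℝ := C * K + 1 with ha
  have ha0 : 0 < a := by positivity
  have h1 := (isLittleO_log_rpow_atTop hs).bound (show 0 < 1 / (4 * D * a) by positivity)
  have h2 : ∀ᶠ x : ℝ in atTop, 4 * D * (K * Real.log 3 + Real.log 4) ≤ x ^ s :=
    (tendsto_rpow_atTop hs).eventually_ge_atTop _
  have h3 := (tendsto_natCast_atTop_atTop (R := ℝ)).eventually (h1.and h2)
  filter_upwards [h3, eventually_ge_atTop 1] with N ⟨hN1, hN2⟩ hN
  have hN0 : (0 : ℝ) < N := by exact_mod_cast hN
  have hl0 : 0 ≤ Real.log N := Real.log_natCast_nonneg N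
  rw [Real.norm_eq_abs, Real.norm_eq_abs, abs_of_nonneg hl0, abs_of_nonneg (by positivity)] at hN1
  have h4 : a * Real.log N ≤ (N : ℝ) ^ s / (4 * D) := by
    have := mul_le_mul_of_nonneg_left hN1 ha0.le
    refine this.trans (le_of_eq ?_)
    field_simp
  have h5 : K * Real.log 3 + Real.log 4 ≤ (N : ℝ) ^ s / (4 * D) := by
    rw [le_div_iff₀ (by positivity)]
    linarith
  have h6 : ((3 * (N : ℝ) ^ C) ^ (g + 1)) ^ k * (4 * N) =
      Real.exp (K * (Real.log 3 + C * Real.log N) + (Real.log 4 + Real.log N)) := by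
    rw [Real.exp_add, Real.exp_add, Real.exp_log (by norm_num), Real.exp_log hN0, ← pow_mul]
    congr 1
    have h7 : Real.log 3 + C * Real.log N = Real.log (3 * (N : ℝ) ^ C) := by
      rw [Real.log_mul (by norm_num) (by positivity), Real.log_rpow hN0]
    rw [h7, mul_comm K, ← Real.rpow_def_of_pos (by positivity), ← Real.rpow_natCast]
    congr 1
    rw [hK]
    push_cast
    ring
  calc ((3 * (N : ℝ) ^ C) ^ (g + 1)) ^ k * (2 * N) * (2 * Real.exp (-((N : ℝ) ^ s / D))) =
      (((3 * (N : ℝ) ^ C) ^ (g + 1)) ^ k * (4 * N)) * Real.exp (-((N : ℝ) ^ s / D)) := by ring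
    _ = Real.exp (K * (Real.log 3 + C * Real.log N) + (Real.log 4 + Real.log N) +
        -((N : ℝ) ^ s / D)) := by rw [h6, ← Real.exp_add]
    _ ≤ Real.exp (-(1 / (2 * D) * (N : ℝ) ^ s)) := by
        refine Real.exp_le_exp.2 ?_
        have h8 : K * (Real.log 3 + C * Real.log N) + (Real.log 4 + Real.log N) =
            (K * Real.log 3 + Real.log 4) + a * Real.log N := by
          rw [ha]
          ring
        have h9 : (N : ℝ) ^ s / (4 * D) + (N : ℝ) ^ s / (4 * D) + -((N : ℝ) ^ s / D) =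
            -(1 / (2 * D) * (N : ℝ) ^ s) := by
          field_simp
          ring
        rw [h8, ← h9]
        linarith

theorem t_UNI (hM : J_MCD) : J_UNI := by
  classical
  intro k g C θ hk hg hC hθ
  have hk0 : (0 : ℝ) < k := by exact_mod_cast hk
  have hg0 : (0 : ℝ) < g := by exact_mod_cast hg
  set D : ℝ := 2 * k * ((k : ℝ) * g) ^ 2 with hD
  have hD0 : 0 < D := by positivity
  refine ⟨1 / (2 * D), by positivity, ?_⟩
  filter_upwards [asy k g hC (show 0 < 2 * θ - 1 by linarith) hD0, eventually_ge_atTop 1] with N hN hN1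
  intro U p Y h0 hp hpU hY
  have hN0 : (0 : ℝ) < N := by exact_mod_cast hN1
  have hN1' : (1 : ℝ) ≤ N := by exact_mod_cast hN1
  refine le_trans ?_ hN
  set B : ℤ := ⌊(N : ℝ) ^ C⌋ with hB
  have hB0 : 0 ≤ B := Int.floor_nonneg.2 (by positivity)
  have hBle : (B : ℝ) ≤ (N : ℝ) ^ C := Int.floor_le _
  have hNC : 1 ≤ (N : ℝ) ^ C := Real.one_le_rpow hN1' hC
  have hu := union_le (box k g B ×ˢ range (N + 1)) (ind U Y).powerset
    (fun a T => Sys g C N (sysOf a.1) ∧ (N : ℝ) ^ θ <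
      |(hit ((T : Finset ℕ) : Set ℕ) (sysOf a.1) a.2 : ℝ) - ex p (sysOf a.1) a.2|)
    (fun T => bern p (ind U Y) T) (fun T => bern_nonneg hp _ _)
    (fun T => ∃ F : Fin k → ℤ[X], Sys g C N F ∧ ∃ x : ℕ, x ≤ N ∧
      (N : ℝ) ^ θ < |(hit ((T : Finset ℕ) : Set ℕ) F x : ℝ) - ex p F x|) (by
      rintro T - ⟨F, hF, x, hx, hE⟩
      refine ⟨(fun i j => (F i).coeff j, x), ?_, ?_⟩
      · rw [mem_product, mem_range, box, Fintype.mem_piFinset]
        refine ⟨fun i => ?_, Nat.lt_succ_of_le hx⟩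
        rw [Fintype.mem_piFinset]
        intro j
        have h1 := hF.coeff i j
        rw [mem_Icc]
        have h2 := abs_le.1 h1
        constructor
        · rw [neg_le]
          refine Int.le_floor.2 ?_
          push_cast
          linarith [h2.1]
        · exact Int.le_floor.2 h2.2
      · simp only [sysOf_coeff hF.le]
        exact ⟨hF, hE⟩)
  refine (le_trans (le_of_eq ?_) hu).trans ?_
  · congr!
  have hone : ∀ a ∈ box k g B ×ˢ range (N + 1),
      ∑ T ∈ (ind U Y).powerset with (Sys g C N (sysOf a.1) ∧ (N : ℝ) ^ θ <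
        |(hit ((T : Finset ℕ) : Set ℕ) (sysOf a.1) a.2 : ℝ) - ex p (sysOf a.1) a.2|),
        bern p (ind U Y) T ≤ 2 * Real.exp (-((N : ℝ) ^ (2 * θ - 1) / D)) := by
    intro a ha
    rw [mem_product, mem_range] at ha
    by_cases hS : Sys g C N (sysOf a.1)
    · have h1 := one_sys hM (θ := θ) hk hg hN1 h0 hp hpU hY hS (Nat.lt_succ_iff.1 ha.2)
      refine le_trans (le_of_eq ?_) h1
      refine sum_congr ?_ fun _ _ => rfl
      ext T
      rw [mem_filter, mem_filter]
      exact ⟨fun h => ⟨h.1, h.2.2⟩, fun h => ⟨h.1, hS, h.2⟩⟩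
    · rw [filter_false_of_mem fun T _ h => hS h.1, sum_empty]
      positivity
  refine (sum_le_card_nsmul _ _ _ hone).trans ?_
  rw [nsmul_eq_mul, card_product, card_range]
  push_cast
  rw [card_box k g hB0]
  have h3 : ((2 * B + 1 : ℤ) : ℝ) ≤ 3 * (N : ℝ) ^ C := by
    push_cast
    linarith
  have h4 : (0 : ℝ) ≤ ((2 * B + 1 : ℤ) : ℝ) := by
    exact_mod_cast (by linarith : (0 : ℤ) ≤ 2 * B + 1)
  refine mul_le_mul_of_nonneg_right ?_ (by positivity)
  refine mul_le_mul (pow_le_pow_left₀ (by positivity) (pow_le_pow_left₀ h4 h3 _) _) (by linarith)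
    (by positivity) (by positivity)

end Pool.Agent.Q149.BU
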