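import Pool.Agent.Q149.BU.UNI

/-!
# Project BU (helper120), job UPE: the uniform error bound for all random sets
-/

set_option autoImplicit false
set_option linter.unusedSectionVars false
set_option linter.unusedVariables false

namespace Pool.Agent.Q149.BU

open Finset MeasureTheory Filter Pool.Agent.Q120.ET Pool.Agent.Q120.ME Pool.Agent.Q120.BU Polynomial
open scoped Topology

theorem lv_pos {Q : ℕ} (hQ : 1 ≤ Q) {n : ℕ} (hn : n ∈ UQ Q) : 0 < lv Q n ∧ lv Q n < 1 := by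
  have h3 : (3 : ℝ) ≤ n := by exact_mod_cast hn.1
  have hl : 0 < Real.log n := Real.log_pos (by linarith)
  have hQ0 : (0 : ℝ) < Q := by exact_mod_cast hQ
  have hφ : (0 : ℝ) < Nat.totient Q := by exact_mod_cast Nat.totient_pos.2 hQ
  unfold lv
  rw [if_pos hn]
  refine ⟨lt_min (by norm_num) (by positivity), ?_⟩
  have := min_le_left (1 / 2 : ℝ) ((Q : ℝ) / Nat.totient Q / Real.log n)
  linarith

theorem lv_mem {Q : ℕ} (hQ : 1 ≤ Q) (n : ℕ) : 0 ≤ lv Q n ∧ lv Q n ≤ 1 := by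
  by_cases hn : n ∈ UQ Q
  · exact ⟨(lv_pos hQ hn).1.le, (lv_pos hQ hn).2.le⟩
  · unfold lv
    rw [if_neg hn]
    exact ⟨le_rfl, zero_le_one⟩

theorem hit_le {k : ℕ} (S : Set ℕ) (F : Fin k → ℤ[X]) (x : ℕ) : (hit S F x : ℝ) ≤ x := by
  classical
  rw [hit_eq]
  have := card_filter_le (range x) (fun n => ∀ i, va (F i) n ∈ S)
  rw [card_range] at this
  exact_mod_cast this

theorem ex_mem {k : ℕ} {p : ℕ → ℝ} (hp : ∀ n, 0 ≤ p n ∧ p n ≤ 1) (F : Fin k → ℤ[X]) (x : ℕ) :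
    0 ≤ ex p F x ∧ ex p F x ≤ x := by
  unfold ex
  refine ⟨sum_nonneg fun n _ => prod_nonneg fun v _ => (hp v).1, ?_⟩
  have h1 : ∀ n ∈ range x, ∏ v ∈ vals F n, p v ≤ 1 := fun n _ =>
    prod_le_one (fun v _ => (hp v).1) fun v _ => (hp v).2
  have h2 := sum_le_card_nsmul _ _ _ h1
  rwa [card_range, nsmul_eq_mul, mul_one] at h2

theorem err_trivial {Q k g : ℕ} (hQ : 1 ≤ Q) {C θ : ℝ} (hθ : 1 ≤ θ) (S : Set ℕ) :
    Err Q k g C θ S := by
  intro ε hε
  filter_upwards [eventually_ge_atTop 1] with N hN F _ x hx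
  have hN1 : (1 : ℝ) ≤ N := by exact_mod_cast hN
  have h1 := hit_le S F x
  have h2 := ex_mem (lv_mem hQ) F x
  have h3 : (0 : ℝ) ≤ hit S F x := Nat.cast_nonneg _
  have h4 : (x : ℝ) ≤ N := by exact_mod_cast hx
  have h5 : (N : ℝ) ≤ (N : ℝ) ^ (θ + ε) := by
    calc (N : ℝ) = (N : ℝ) ^ (1 : ℝ) := (Real.rpow_one _).symm
      _ ≤ _ := Real.rpow_le_rpow_of_exponent_le hN1 (by linarith)
  rw [abs_le]
  constructor <;> linarith [h2.1, h2.2]

/-- a system at `N` is a system at `N'` -/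
theorem sys_mono {k g : ℕ} {C : ℝ} (hC : 0 ≤ C) {N N' : ℕ} (h : N ≤ N') {F : Fin k → ℤ[X]}
    (hF : Sys g C N F) : Sys g C N' F where
  inj := hF.inj
  one_le := hF.one_le
  le := hF.le
  coeff := fun i j => (hF.coeff i j).trans
    (Real.rpow_le_rpow (Nat.cast_nonneg N) (by exact_mod_cast h) hC)

/-- the size bound -/
noncomputable def YY (g : ℕ) (C : ℝ) (N : ℕ) : ℕ := ⌈((g : ℝ) + 1) * (N : ℝ) ^ ((g : ℝ) + C)⌉₊ + 1

theorem YY_gt (g : ℕ) (C : ℝ) (N : ℕ) : ((g : ℝ) + 1) * (N : ℝ) ^ ((g : ℝ) + C) < YY g C N := by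
  unfold YY
  push_cast
  have := Nat.le_ceil (((g : ℝ) + 1) * (N : ℝ) ^ ((g : ℝ) + C))
  linarith

theorem YY_le {g : ℕ} {C : ℝ} (hC : 0 ≤ C) {N : ℕ} (hN : 1 ≤ N) :
    (YY g C N : ℝ) ≤ ((g : ℝ) + 3) * (N : ℝ) ^ ((g : ℝ) + C) := by
  have hN1 : (1 : ℝ) ≤ N := by exact_mod_cast hN
  have h1 : 1 ≤ (N : ℝ) ^ ((g : ℝ) + C) := Real.one_le_rpow hN1 (by positivity)
  have h2 := Nat.ceil_lt_add_one (show 0 ≤ ((g : ℝ) + 1) * (N : ℝ) ^ ((g : ℝ) + C) by positivity)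
  unfold YY
  push_cast
  linarith

/-- the counts only depend on the trace -/
theorem hit_tr {Ω : Type} [MeasurableSpace Ω] {k g : ℕ} {C : ℝ} {N : ℕ} (hN : 1 ≤ N) {U : Set ℕ} {A : Ω → Set ℕ} {ω : Ω}
    (hA : A ω ⊆ U) {F : Fin k → ℤ[X]} (hF : Sys g C N F) {x : ℕ} (hx : x ≤ N) :
    hit (A ω) F x = hit ((tr A (ind U (YY g C N)) ω : Finset ℕ) : Set ℕ) F x := by
  classical
  rw [hit_eq, hit_eq]
  congr 1
  ext n
  rw [mem_filter, mem_filter]
  refine and_congr_right fun hn => forall_congr' fun i => ?_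
  rw [mem_coe, mem_tr]
  refine ⟨fun h => ⟨?_, h⟩, fun h => h.2⟩
  unfold ind
  rw [mem_filter, mem_range]
  refine ⟨?_, hA h⟩
  have h1 := va_le hN (hF.le i) (hF.coeff i) (n := n) ((mem_range.1 hn).le.trans hx)
  exact_mod_cast h1.trans_lt (YY_gt g C N)

/-- the bad event -/
def Bad {k : ℕ} (Q g : ℕ) (C θ : ℝ) (N : ℕ) (T : Finset ℕ) : Prop :=
  ∃ F : Fin k → ℤ[X], Sys g C N F ∧ ∃ x : ℕ, x ≤ N ∧
    (N : ℝ) ^ θ < |(hit ((T : Finset ℕ) : Set ℕ) F x : ℝ) - ex (lv Q) F x|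

section

variable {Ω : Type} [MeasurableSpace Ω] {μ : Measure Ω} [IsProbabilityMeasure μ] {A : Ω → Set ℕ}

theorem prob_bad (hE : J_EVT) (hU : J_UNI) {Q k g : ℕ} {C δ θ : ℝ} (hQ : 1 ≤ Q) (hk : 1 ≤ k)
    (hg : 1 ≤ g) (hC : 0 < C) (hδ : 0 ≤ δ) (hA : UCls Q δ μ A) {ε : ℝ} (hε : 0 < ε)
    (hθ : 1 + (g + C) * δ + ε ≤ 2 * θ) :
    ∃ D : ℝ, ∀ᶠ N : ℕ in atTop,
      μ.real {ω | Bad (k := k) Q g C θ N (tr A (ind (UQ Q) (YY g C N)) ω)} ≤ D * (N : ℝ) ^ (-(ε / 2)) := by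
  classical
  have hgC : 0 < (g : ℝ) + C := by positivity
  have hθ1 : 1 / 2 < θ := by
    have : 0 ≤ ((g : ℝ) + C) * δ := mul_nonneg hgC.le hδ
    linarith
  obtain ⟨c, hc, hc1⟩ := hU k g C θ hk hg hC.le hθ1
  set η : ℝ := ε / (2 * ((g : ℝ) + C)) with hη
  have hη0 : 0 < η := by positivity
  have hY : Tendsto (fun N : ℕ => YY g C N) atTop atTop := by
    refine tendsto_atTop_mono (fun N => ?_) (tendsto_id (α := ℕ))
    rcases Nat.eq_zero_or_pos N with h0 | h0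
    · rw [h0]
      exact Nat.zero_le _
    · have h1 : (1 : ℝ) ≤ N := by exact_mod_cast h0
      have h2 : (N : ℝ) ≤ (N : ℝ) ^ ((g : ℝ) + C) := by
        calc (N : ℝ) = (N : ℝ) ^ (1 : ℝ) := (Real.rpow_one _).symm
          _ ≤ _ := Real.rpow_le_rpow_of_exponent_le h1 (by
            have : (1 : ℝ) ≤ g := by exact_mod_cast hg
            linarith)
      have h3 := YY_gt g C N
      have h4 : (N : ℝ) ≤ YY g C N := by
        have h5 : (0 : ℝ) ≤ g := Nat.cast_nonneg g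
        have h6 : 0 ≤ (g : ℝ) * (N : ℝ) ^ ((g : ℝ) + C) := by positivity
        nlinarith
      exact_mod_cast h4
  have hrel := hY.eventually (hA.2.2 η hη0)
  refine ⟨((((g : ℝ) + 3) ^ (δ + η) + Real.log 2) / c), ?_⟩
  filter_upwards [hc1, hrel, eventually_ge_atTop 1] with N hN1 hN2 hN
  have hNr : (1 : ℝ) ≤ N := by exact_mod_cast hN
  have hN0 : (0 : ℝ) < N := by linarith
  have h1 := hN1 (UQ Q) (lv Q) (YY g C N) (fun h => by
      have := h.1
      omega) (lv_mem hQ) (fun n hn => by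
      unfold lv
      rw [if_neg hn]) (YY_gt g C N)
  have h2 := (hE (lv Q) (ind (UQ Q) (YY g C N)) (fun n hn => by
      unfold ind at hn
      exact lv_pos hQ (mem_filter.1 hn).2) Ω μ A hA.1).2 (Bad (k := k) Q g C θ N)
      (c * (N : ℝ) ^ (2 * θ - 1)) (by
        refine le_trans (le_of_eq ?_) h1
        refine sum_congr ?_ fun _ _ => rfl
        ext T
        rw [mem_filter, mem_filter]
        exact Iff.rfl)
  have h3 : relEnt (lv Q) μ A (ind (UQ Q) (YY g C N)) + Real.log 2 ≤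
      (((g : ℝ) + 3) ^ (δ + η) + Real.log 2) * (N : ℝ) ^ (((g : ℝ) + C) * (δ + η)) := by
    have h4 : ((YY g C N : ℕ) : ℝ) ^ (δ + η) ≤
        ((g : ℝ) + 3) ^ (δ + η) * (N : ℝ) ^ (((g : ℝ) + C) * (δ + η)) := by
      calc ((YY g C N : ℕ) : ℝ) ^ (δ + η) ≤ (((g : ℝ) + 3) * (N : ℝ) ^ ((g : ℝ) + C)) ^ (δ + η) :=
            Real.rpow_le_rpow (Nat.cast_nonneg _) (YY_le hC.le hN) (by linarith)
        _ = _ := by rw [Real.mul_rpow (by positivity) (by positivity), ← Real.rpow_mul hN0.le]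
    have h5 : 1 ≤ (N : ℝ) ^ (((g : ℝ) + C) * (δ + η)) := Real.one_le_rpow hNr (by positivity)
    have h6 : 0 < Real.log 2 := Real.log_pos (by norm_num)
    have h7 : Real.log 2 ≤ Real.log 2 * (N : ℝ) ^ (((g : ℝ) + C) * (δ + η)) :=
      le_mul_of_one_le_right h6.le h5
    have h8 := hN2.trans h4
    linarith
  have h4 := h2.trans h3
  have h5 : (0 : ℝ) < c * (N : ℝ) ^ (2 * θ - 1) := by positivity
  rw [← le_div_iff₀ h5] at h4
  refine h4.trans ?_
  have hL : 0 ≤ ((g : ℝ) + 3) ^ (δ + η) + Real.log 2 := by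
    have : 0 < Real.log 2 := Real.log_pos (by norm_num)
    positivity
  rw [div_mul_eq_mul_div, div_le_div_iff₀ h5 hc]
  have h6 : (N : ℝ) ^ (((g : ℝ) + C) * (δ + η)) ≤ (N : ℝ) ^ (-(ε / 2)) * (N : ℝ) ^ (2 * θ - 1) := by
    rw [← Real.rpow_add hN0]
    refine Real.rpow_le_rpow_of_exponent_le hNr ?_
    have h7 : ((g : ℝ) + C) * η = ε / 2 := by
      rw [hη]
      field_simp
    nlinarith
  calc (((g : ℝ) + 3) ^ (δ + η) + Real.log 2) * (N : ℝ) ^ (((g : ℝ) + C) * (δ + η)) * c ≤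
      (((g : ℝ) + 3) ^ (δ + η) + Real.log 2) * ((N : ℝ) ^ (-(ε / 2)) * (N : ℝ) ^ (2 * θ - 1)) * c :=
        mul_le_mul_of_nonneg_right (mul_le_mul_of_nonneg_left h6 hL) hc.le
    _ = _ := by ring

/-- almost surely no bad event at the powers of two -/
theorem ae_good (hE : J_EVT) (hU : J_UNI) {Q k g : ℕ} {C δ θ : ℝ} (hQ : 1 ≤ Q) (hk : 1 ≤ k)
    (hg : 1 ≤ g) (hC : 0 < C) (hδ : 0 ≤ δ) (hA : UCls Q δ μ A) {ε : ℝ} (hε : 0 < ε)
    (hθ : 1 + (g + C) * δ + ε ≤ 2 * θ) :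
    ∀ᵐ ω ∂μ, ∀ᶠ j : ℕ in atTop,
      ¬ Bad (k := k) Q g C θ (2 ^ j) (tr A (ind (UQ Q) (YY g C (2 ^ j))) ω) := by
  obtain ⟨D, hD⟩ := prob_bad (k := k) hE hU hQ hk hg hC hδ hA hε hθ
  have ht : Tendsto (fun j : ℕ => 2 ^ j) atTop atTop := tendsto_pow_atTop_atTop_of_one_lt (by norm_num)
  obtain ⟨j0, hj0⟩ := eventually_atTop.1 (ht.eventually hD)
  set b : ℕ → ℝ := fun j => if j < j0 then 1 else |D| * ((2 : ℝ) ^ (-(ε / 2))) ^ j with hb
  have hs : Summable b := by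
    have h1 : Summable fun j : ℕ => |D| * ((2 : ℝ) ^ (-(ε / 2))) ^ j :=
      (summable_geometric_of_lt_one (by positivity)
        (Real.rpow_lt_one_of_one_lt_of_neg (by norm_num) (by linarith))).mul_left _
    refine (summable_congr_cofinite ?_).1 h1
    rw [Nat.cofinite_eq_atTop]
    filter_upwards [eventually_ge_atTop j0] with j hj
    rw [hb]
    simp only
    rw [if_neg (not_lt.2 hj)]
  have hm : ∀ j : ℕ, μ {ω | Bad (k := k) Q g C θ (2 ^ j) (tr A (ind (UQ Q) (YY g C (2 ^ j))) ω)} ≤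
      ENNReal.ofReal (b j) := by
    intro j
    rw [← ofReal_measureReal]
    refine ENNReal.ofReal_le_ofReal ?_
    rw [hb]
    simp only
    split_ifs with h
    · exact measureReal_le_one
    · refine (hj0 j (not_lt.1 h)).trans ?_
      push_cast
      have h2 : ((2 : ℝ) ^ j) ^ (-(ε / 2)) = ((2 : ℝ) ^ (-(ε / 2))) ^ j := by
        rw [← Real.rpow_natCast, ← Real.rpow_mul (by norm_num), mul_comm, Real.rpow_mul (by norm_num),
          Real.rpow_natCast]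
      rw [h2]
      exact mul_le_mul_of_nonneg_right (le_abs_self D) (by positivity)
  exact ae_eventually_notMem
    (ne_top_of_le_ne_top hs.tsum_ofReal_ne_top (ENNReal.tsum_le_tsum hm))

end

theorem t_UPE (hE : J_EVT) (hU : J_UNI) : J_UPE := by
  intro Q k g C δ θ hQ hk hg hC hδ hθ Ω _ μ _ A hA
  rcases le_or_gt 1 (((g : ℝ) + C) * δ) with h1 | h1
  · rw [min_eq_left h1] at hθ
    exact Eventually.of_forall fun ω => err_trivial hQ (by linarith) _
  · rw [min_eq_right h1.le] at hθ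
    have hgC : 0 < (g : ℝ) + C := by positivity
    have hθ0 : 0 ≤ θ := by
      have : 0 ≤ ((g : ℝ) + C) * δ := mul_nonneg hgC.le hδ
      linarith
    have h2 : ∀ i : ℕ, ∀ᵐ ω ∂μ, ∀ᶠ j : ℕ in atTop,
        ¬ Bad (k := k) Q g C (θ + 1 / ((i : ℝ) + 1) / 2) (2 ^ j)
          (tr A (ind (UQ Q) (YY g C (2 ^ j))) ω) := fun i =>
      ae_good hE hU hQ hk hg hC hδ hA (ε := 1 / ((i : ℝ) + 1)) (by positivity) (by linarith)
    filter_upwards [ae_all_iff.2 h2, hA.2.1] with ω hω hAω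
    intro ε hε
    obtain ⟨i, hi⟩ := exists_nat_one_div_lt hε
    set e : ℝ := 1 / ((i : ℝ) + 1) with he
    have he0 : 0 < e := by positivity
    obtain ⟨j0, hj0⟩ := eventually_atTop.1 (hω i)
    have h3 : ∀ᶠ N : ℕ in atTop, (2 : ℝ) ^ (θ + e / 2) ≤ (N : ℝ) ^ (e / 2) :=
      ((tendsto_rpow_atTop (by positivity)).comp tendsto_natCast_atTop_atTop).eventually_ge_atTop _
    filter_upwards [h3, eventually_ge_atTop (2 ^ j0), eventually_ge_atTop 1] with N hN1 hN2 hN F hF x hx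
    have hNr : (1 : ℝ) ≤ N := by exact_mod_cast hN
    have hN0 : (0 : ℝ) < N := by linarith
    set j : ℕ := Nat.clog 2 N with hj
    have hjN : N ≤ 2 ^ j := Nat.le_pow_clog (by norm_num) N
    have hjN2 : 2 ^ j ≤ 2 * N := by
      rcases Nat.lt_or_ge 1 N with h | h
      · have h4 := Nat.pow_pred_clog_lt_self (b := 2) (by norm_num) h
        rw [← hj] at h4
        have h5 : 0 < j := Nat.clog_pos (by norm_num) h
        have h6 : 2 ^ j = 2 * 2 ^ j.pred := by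
          conv_lhs => rw [← Nat.succ_pred_eq_of_pos h5]
          rw [pow_succ, mul_comm]
        omega
      · have h4 : N = 1 := le_antisymm h hN
        have h5 : j = 0 := by
          rw [hj, h4]
          simp
        rw [h5, h4]
        norm_num
    have hjj : j0 ≤ j := (Nat.pow_le_pow_iff_right (by norm_num : 1 < 2)).1 (hN2.trans hjN)
    have hgood := hj0 j hjj
    have hF' : Sys g C (2 ^ j) F := sys_mono hC.le hjN hF
    have h4 : |(hit (A ω) F x : ℝ) - ex (lv Q) F x| ≤ ((2 ^ j : ℕ) : ℝ) ^ (θ + e / 2) := by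
      by_contra hcon
      push Not at hcon
      refine hgood ⟨F, hF', x, hx.trans hjN, ?_⟩
      rw [← hit_tr (Nat.one_le_two_pow) hAω hF' (hx.trans hjN)]
      exact hcon
    refine h4.trans ?_
    calc ((2 ^ j : ℕ) : ℝ) ^ (θ + e / 2) ≤ (2 * (N : ℝ)) ^ (θ + e / 2) := by
          refine Real.rpow_le_rpow (Nat.cast_nonneg _) ?_ (by positivity)
          exact_mod_cast hjN2
      _ = (2 : ℝ) ^ (θ + e / 2) * (N : ℝ) ^ (θ + e / 2) := Real.mul_rpow (by norm_num) hN0.le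
      _ ≤ (N : ℝ) ^ (e / 2) * (N : ℝ) ^ (θ + e / 2) := mul_le_mul_of_nonneg_right hN1 (by positivity)
      _ = (N : ℝ) ^ (θ + e) := by
          rw [← Real.rpow_add hN0]
          congr 1
          ring
      _ ≤ (N : ℝ) ^ (θ + ε) := Real.rpow_le_rpow_of_exponent_le hNr (by linarith)

end Pool.Agent.Q149.BU
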